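import Pool.Agent.W413.MC.Stmts
import Pool.Agent.W880.MZ.H3

/-!
# MP_cd44e0_nt, part CHAR: quadratic characters which lift to exponent `2 ^ m`
-/

set_option autoImplicit false

namespace Pool.Agent.W880.MCChar

open NumberField IsDedekindDomain Pool.Agent.W368.MZK4

/-- complex conjugation attached to an embedding whose restriction to `F` is real (helper294) -/
theorem exists_conj {F E : Type} [Field F] [Field E] [Algebra F E] [Normal F E]
    (f : E →+* ℂ) (hF : ComplexEmbedding.IsReal (f.comp (algebraMap F E))) :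
    ∃ c : E ≃ₐ[F] E, (∀ x, f (c x) = (starRingEnd ℂ) (f x)) ∧ c * c = 1 := by
  let _ : Algebra E ℂ := f.toAlgebra
  let _ : Algebra F ℂ := (f.comp (algebraMap F E)).toAlgebra
  have _ : IsScalarTower F E ℂ := IsScalarTower.of_algebraMap_eq' rfl
  let psi : E →ₐ[F] ℂ :=
    { (starRingEnd ℂ).comp f with
      commutes' := fun x => RingHom.congr_fun hF x }
  have h1 : ∀ x, f (psi.restrictNormal' E x) = (starRingEnd ℂ) (f x) := fun x =>
    psi.restrictNormal_commutes E x
  refine ⟨psi.restrictNormal' E, h1, ?_⟩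
  ext x
  apply f.injective
  rw [AlgEquiv.mul_apply, h1, h1, Complex.conj_conj]
  rfl

/-- if `q a = 0` with `0 < q < 2 ^ m` and `2 ^ m a = 0`, then `2 ^ (m - 1) a = 0` -/
theorem two_pow_kill {A : Type} [AddCommGroup A] {m q : ℕ} (hm : 1 ≤ m) (hq0 : 0 < q)
    (hq : q < 2 ^ m) (a : A) (h1 : q • a = 0) (h2 : 2 ^ m • a = 0) : 2 ^ (m - 1) • a = 0 := by
  have d1 : addOrderOf a ∣ q := addOrderOf_dvd_of_nsmul_eq_zero h1
  have d2 : addOrderOf a ∣ 2 ^ m := addOrderOf_dvd_of_nsmul_eq_zero h2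
  obtain ⟨j, hj, hj'⟩ := (Nat.dvd_prime_pow Nat.prime_two).1 d2
  have h3 : 2 ^ j < 2 ^ m := by
    rw [← hj']
    exact lt_of_le_of_lt (Nat.le_of_dvd hq0 d1) hq
  have h4 : j < m := (Nat.pow_lt_pow_iff_right (by norm_num)).1 h3
  apply addOrderOf_dvd_iff_nsmul_eq_zero.1
  rw [hj']
  exact pow_dvd_pow 2 (by omega)

/-- residue fields at the primes containing `N` are small -/
theorem card_res_le {L : Type} [Field L] [NumberField L] (N : ℕ) (hN : N ≠ 0)
    (v : HeightOneSpectrum (𝓞 L)) (hv : (N : 𝓞 L) ∈ v.asIdeal) :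
    Nat.card (𝓞 L ⧸ v.asIdeal) ≤ Nat.card (𝓞 L ⧸ (Ideal.span {(N : 𝓞 L)})) := by
  have hne : (Ideal.span {(N : 𝓞 L)}) ≠ ⊥ := by
    rw [ne_eq, Ideal.span_singleton_eq_bot]
    exact_mod_cast hN
  have hfin : Finite (𝓞 L ⧸ (Ideal.span {(N : 𝓞 L)})) := Ideal.finiteQuotientOfFreeOfNeBot _ hne
  have hle : Ideal.span {(N : 𝓞 L)} ≤ v.asIdeal := by
    rw [Ideal.span_le, Set.singleton_subset_iff]
    exact hv
  exact Nat.card_le_card_of_surjective _ (Ideal.Quotient.factor_surjective hle)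

theorem one_lt_card_res {L : Type} [Field L] [NumberField L] (v : HeightOneSpectrum (𝓞 L)) :
    1 < Nat.card (𝓞 L ⧸ v.asIdeal) := by
  have hfin : Finite (𝓞 L ⧸ v.asIdeal) := Ideal.finiteQuotientOfFreeOfNeBot _ v.ne_bot
  have := v.isPrime
  exact Finite.one_lt_card_iff_nontrivial.2 inferInstance

section main

variable {L K : Type} [Field L] [NumberField L] [Field K] [Algebra L K] [IsGalois L K]

/-- the character -/
noncomputable def chr {A : Type} [AddCommGroup A] (f : Gal(K/L) →* Multiplicative A)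
    (μ : A →+ ZMod 2) : (⊤ : Subgroup Gal(K/L)) →* Multiplicative (ZMod 2) :=
  ((AddMonoidHom.toMultiplicative μ).comp f).comp (Subgroup.subtype ⊤)

omit [NumberField L] [IsGalois L K] in
theorem chr_eq_one {A : Type} [AddCommGroup A] (f : Gal(K/L) →* Multiplicative A)
    (μ : A →+ ZMod 2) (g : (⊤ : Subgroup Gal(K/L))) :
    chr f μ g = 1 ↔ μ (Multiplicative.toAdd (f g)) = 0 := Iff.rfl

omit [NumberField L] in
theorem exists_sqrt {A : Type} [AddCommGroup A] (f : Gal(K/L) →* Multiplicative A)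
    (μ : A →+ ZMod 2) (hf : IsOpen (f.ker : Set Gal(K/L))) :
    ∃ (y : K) (a : L), y ≠ 0 ∧ y ^ 2 = algebraMap L K a ∧ ∀ g : Gal(K/L),
      (μ (Multiplicative.toAdd (f g)) = 0 → g y = y) ∧
      (μ (Multiplicative.toAdd (f g)) ≠ 0 → g y = -y) := by
  have hopen : IsOpen ((chr f μ).ker : Set (⊤ : Subgroup Gal(K/L))) := by
    have h1 : IsOpen ((f.ker.comap (Subgroup.subtype ⊤) : Subgroup (⊤ : Subgroup Gal(K/L))) :
        Set (⊤ : Subgroup Gal(K/L))) := hf.preimage continuous_subtype_val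
    refine Subgroup.isOpen_mono ?_ h1
    intro g hg
    rw [MonoidHom.mem_ker, chr_eq_one]
    have h2 : f (g : Gal(K/L)) = 1 := hg
    rw [h2, toAdd_one, map_zero]
  obtain ⟨y, hy0, hy⟩ := exists_y (⊤ : Subgroup Gal(K/L)) isOpen_univ (chr f μ) hopen
  have hy' : ∀ g : Gal(K/L),
      (μ (Multiplicative.toAdd (f g)) = 0 → g y = y) ∧
      (μ (Multiplicative.toAdd (f g)) ≠ 0 → g y = -y) := fun g =>
    hy ⟨g, Subgroup.mem_top g⟩
  have h2 : y ^ 2 ∈ Set.range (algebraMap L K) := by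
    rw [InfiniteGalois.mem_range_algebraMap_iff_fixed]
    intro g
    rw [map_pow]
    by_cases h1 : μ (Multiplicative.toAdd (f g)) = 0
    · rw [(hy' g).1 h1]
    · rw [(hy' g).2 h1]
      ring
  obtain ⟨a, ha⟩ := h2
  exact ⟨y, a, hy0, ha.symm, hy'⟩

omit [NumberField L] in
/-- total positivity -/
theorem tot_pos (hreal : ∀ τ : L →+* ℂ, ComplexEmbedding.IsReal τ) {A : Type} [AddCommGroup A]
    (f : Gal(K/L) →* Multiplicative A) (μ : A →+ ZMod 2) {m : ℕ} (hm : 2 ≤ m)
    (hμ : ∀ a : A, 2 ^ (m - 1) • a = 0 → μ a = 0) (y : K) (a : L) (hy0 : y ≠ 0)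
    (hya : y ^ 2 = algebraMap L K a)
    (hy : ∀ g : Gal(K/L), μ (Multiplicative.toAdd (f g)) = 0 → g y = y) (τ : L →+* ℝ) :
    0 < τ a := by
  let τ' : L →+* ℂ := Complex.ofRealHom.comp τ
  obtain ⟨φ, hφ⟩ : ∃ φ : K →+* ℂ, φ.comp (algebraMap L K) = τ' := by
    let _ := τ'.toAlgebra
    let f : K →ₐ[L] ℂ := IsAlgClosed.lift
    exact ⟨f.toRingHom, f.comp_algebraMap⟩
  obtain ⟨c, hc, hcc⟩ := exists_conj (F := L) φ (hreal _)
  have h1 : μ (Multiplicative.toAdd (f c)) = 0 := by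
    apply hμ
    have h2 : (2 : ℕ) • Multiplicative.toAdd (f c) = 0 := by
      rw [two_nsmul, ← toAdd_mul, ← map_mul, hcc, map_one, toAdd_one]
    have h3 : 2 ^ (m - 1) = 2 ^ (m - 2) * 2 := by
      rw [← pow_succ]
      congr 1
      omega
    rw [h3, mul_smul, h2, smul_zero]
  have h2 : (starRingEnd ℂ) (φ y) = φ y := by
    rw [← hc, hy c h1]
  obtain ⟨r, hr⟩ := Complex.conj_eq_iff_real.1 h2
  have h3 : ((τ a : ℝ) : ℂ) = ((r ^ 2 : ℝ) : ℂ) := by
    have h4 : φ (algebraMap L K a) = ((τ a : ℝ) : ℂ) := RingHom.congr_fun hφ a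
    rw [← h4, ← hya, map_pow, hr]
    push_cast
    rfl
  have h4 : τ a = r ^ 2 := by exact_mod_cast h3
  rw [h4]
  have h5 : r ≠ 0 := by
    rintro rfl
    rw [Complex.ofReal_zero] at hr
    exact hy0 ((map_eq_zero φ).1 hr)
  positivity

/-- the valuations outside `2` are even -/
theorem even_out (htame : MC.StmTame) (N : ℕ) (hN : N ≠ 0)
    (hunr : ∀ E : IntermediateField L K, FiniteDimensional L E → ∀ w : HeightOneSpectrum (𝓞 E),
      (N : 𝓞 E) ∉ w.asIdeal → Algebra.IsUnramifiedAt (𝓞 L) w.asIdeal)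
    {A : Type} [AddCommGroup A] (f : Gal(K/L) →* Multiplicative A) (μ : A →+ ZMod 2) {m : ℕ}
    (hm : 1 ≤ m) (hmN : Nat.card (𝓞 L ⧸ (Ideal.span {(N : 𝓞 L)})) < 2 ^ m)
    (hf : IsOpen (f.ker : Set Gal(K/L))) (hA : ∀ a : A, 2 ^ m • a = 0)
    (hμ : ∀ a : A, 2 ^ (m - 1) • a = 0 → μ a = 0) (y : K) (a : L)
    (hya : y ^ 2 = algebraMap L K a)
    (hy : ∀ g : Gal(K/L), μ (Multiplicative.toAdd (f g)) = 0 → g y = y) :
    MZ294.EvenOut2 L a := by
  intro v hv2
  have hclosed : IsClosed (f.ker : Set Gal(K/L)) := Subgroup.isClosed_of_isOpen _ hf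
  obtain ⟨E, hE⟩ : ∃ E : IntermediateField L K, E = IntermediateField.fixedField f.ker := ⟨_, rfl⟩
  have hfix : E.fixingSubgroup = f.ker := by
    have h3 := InfiniteGalois.fixingSubgroup_fixedField
      (⟨f.ker, hclosed⟩ : ClosedSubgroup Gal(K/L))
    rw [hE]
    exact h3
  have hfd : FiniteDimensional L E := by
    rw [← InfiniteGalois.isOpen_iff_finite, hfix]
    exact hf
  have hgal : IsGalois L E := by
    rw [← InfiniteGalois.normal_iff_isGalois, hfix]
    infer_instance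
  have hnE : NumberField E := NumberField.of_module_finite L E
  -- elements of the kernel
  have hker : ∀ g : Gal(K/L), f g = 1 ↔ ∀ x ∈ E, g x = x := by
    intro g
    rw [← IntermediateField.mem_fixingSubgroup_iff, hfix, MonoidHom.mem_ker]
  have hyE : y ∈ E := by
    rw [hE, IntermediateField.mem_fixedField_iff]
    intro g hg
    apply hy
    have h1 : f g = 1 := hg
    rw [h1, toAdd_one, map_zero]
  -- restriction to `E`
  have hsurj : ∀ g : E ≃ₐ[L] E, ∃ g' : Gal(K/L), ∀ x : E, (g x : K) = g' (x : K) := by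
    intro g
    obtain ⟨g', hg'⟩ := AlgEquiv.restrictNormalHom_surjective (F := L) (K₁ := E) K g
    refine ⟨g', fun x => ?_⟩
    rw [← hg']
    exact AlgEquiv.restrictNormal_commutes g' E x
  choose lf hlf using hsurj
  have hmul : ∀ g h : E ≃ₐ[L] E, f (lf (g * h)) = f (lf g) * f (lf h) := by
    intro g h
    have h1 : f ((lf (g * h))⁻¹ * (lf g * lf h)) = 1 := by
      rw [hker]
      intro x hx
      rw [AlgEquiv.mul_apply]
      apply (lf (g * h)).injective
      have e1 : (lf (g * h)) ((lf (g * h))⁻¹ ((lf g * lf h) x)) = (lf g * lf h) x := by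
        rw [← AlgEquiv.mul_apply, mul_inv_cancel, AlgEquiv.one_apply]
      rw [e1, AlgEquiv.mul_apply]
      have e2 := hlf (g * h) ⟨x, hx⟩
      have e3 := hlf h ⟨x, hx⟩
      have e4 := hlf g (h ⟨x, hx⟩)
      rw [← e2, AlgEquiv.mul_apply, e4, e3]
    rw [map_mul, map_inv, map_mul, inv_mul_eq_one] at h1
    exact h1
  have hone : ∀ g : E ≃ₐ[L] E, f (lf g) = 1 → g = 1 := by
    intro g hg
    rw [hker] at hg
    ext x
    rw [hlf, hg _ x.2]
    rfl
  have hinj : ∀ g h : E ≃ₐ[L] E, f (lf g) = f (lf h) → g = h := by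
    intro g h hgh
    have h1 : f (lf (h⁻¹ * g)) = 1 := by
      have h2 := hmul h (h⁻¹ * g)
      rw [mul_inv_cancel_left, hgh] at h2
      exact (mul_eq_left.1 h2.symm)
    have h2 := hone _ h1
    rw [inv_mul_eq_one] at h2
    exact h2.symm
  have hone' : f (lf 1) = 1 := by
    have h2 := hmul 1 1
    rw [one_mul] at h2
    exact (mul_eq_left.1 h2.symm)
  have hpow : ∀ (g : E ≃ₐ[L] E) (k : ℕ), f (lf (g ^ k)) = f (lf g) ^ k := by
    intro g k
    induction k with
    | zero => rw [pow_zero, pow_zero, hone']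
    | succ k ih => rw [pow_succ, hmul, ih, pow_succ]
  have habel : ∀ g h : E ≃ₐ[L] E, g * h = h * g := by
    intro g h
    apply hinj
    rw [hmul, hmul, mul_comm]
  have hexp : ∀ g : E ≃ₐ[L] E, ∃ e : ℕ, g ^ (2 ^ e) = 1 := by
    intro g
    refine ⟨m, hone _ ?_⟩
    rw [hpow]
    apply Multiplicative.toAdd.injective
    rw [toAdd_pow, toAdd_one]
    exact hA _
  -- the prime
  have hvm := v.isMaximal
  have hvp := v.isPrime
  obtain ⟨P, hPm, hP⟩ := Ideal.exists_maximal_ideal_liesOver_of_isIntegral (S := 𝓞 E) v.asIdeal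
  have hPp : P.IsPrime := hPm.isPrime
  have hPb : P ≠ ⊥ := Ideal.ne_bot_of_liesOver_of_ne_bot v.ne_bot P
  have hover : v.asIdeal = P.under (𝓞 L) := hP.over
  have h2P : (2 : 𝓞 E) ∉ P := by
    intro h
    apply hv2
    rw [hover, Ideal.mem_comap, map_ofNat]
    exact h
  -- inertia fixes `y`
  have hclaim : ∀ g : E ≃ₐ[L] E, MZ413.InInertia P g → g (⟨y, hyE⟩ : E) = ⟨y, hyE⟩ := by
    intro g hg
    by_cases hNP : (N : 𝓞 E) ∈ P
    · have hNv : (N : 𝓞 L) ∈ v.asIdeal := by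
        rw [hover, Ideal.mem_comap, map_natCast]
        exact hNP
      have h1 := htame L E habel hexp P hPb h2P g hg
      rw [← hover] at h1
      have hc1 := one_lt_card_res v
      have hc2 := card_res_le N hN v hNv
      have h2 : (Nat.card (𝓞 L ⧸ v.asIdeal) - 1) • Multiplicative.toAdd (f (lf g)) = 0 := by
        rw [← toAdd_pow, ← hpow, h1, hone', toAdd_one]
      have h3 : μ (Multiplicative.toAdd (f (lf g))) = 0 :=
        hμ _ (two_pow_kill hm (by omega) (by omega) _ h2 (hA _))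
      apply Subtype.ext
      rw [hlf]
      exact hy _ h3
    · have h1 : Algebra.IsUnramifiedAt (𝓞 L) P := hunr E hfd ⟨P, hPp, hPb⟩ hNP
      have h2 : P.ramificationIdx (𝓞 L) = 1 := Ideal.ramificationIdx_eq_one_of_isUnramifiedAt
      rw [← MZ413.card_inertia (F := L) P, Nat.card_eq_one_iff_unique] at h2
      have hsub := h2.1
      have h3 : (⟨g, hg⟩ : {g : E ≃ₐ[L] E // MZ413.InInertia P g}) = ⟨1, fun x z h => by
          have : z = x := RingOfIntegers.ext h
          rw [this, sub_self]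
          exact P.zero_mem⟩ := Subsingleton.elim _ _
      have h4 : g = 1 := congrArg Subtype.val h3
      rw [h4]
      rfl
  -- the quadratic extension
  obtain ⟨M, hM⟩ : ∃ M : IntermediateField L E, M = IntermediateField.adjoin L {(⟨y, hyE⟩ : E)} :=
    ⟨_, rfl⟩
  have hyM : (⟨y, hyE⟩ : E) ∈ M := by
    rw [hM]
    exact IntermediateField.mem_adjoin_simple_self L _
  have hnM : NumberField M := NumberField.of_module_finite L M
  have hunrM : Algebra.IsUnramifiedAt (𝓞 L) (P.under (𝓞 M)) := by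
    refine (MZ413.unram_iff_inertia (F := L) (K := M) P hPb).mpr fun g hg x => ?_
    have h1 : M ≤ IntermediateField.fixedField (Subgroup.zpowers g) := by
      rw [hM, IntermediateField.adjoin_le_iff, Set.singleton_subset_iff]
      change (⟨y, hyE⟩ : E) ∈ IntermediateField.fixedField (Subgroup.zpowers g)
      rw [IntermediateField.mem_fixedField_iff]
      intro h hh
      have h3 : Subgroup.zpowers g ≤ MulAction.stabilizer (E ≃ₐ[L] E) (⟨y, hyE⟩ : E) := by
        rw [Subgroup.zpowers_le, MulAction.mem_stabilizer_iff]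
        exact hclaim g hg
      exact h3 hh
    have h2 := h1 x.2
    rw [IntermediateField.mem_fixedField_iff] at h2
    exact h2 g (Subgroup.mem_zpowers g)
  have hQp : (P.under (𝓞 M)).IsPrime := Ideal.IsPrime.under (𝓞 M) P
  let w : HeightOneSpectrum (𝓞 M) := ⟨P.under (𝓞 M), hQp, Ideal.under_ne_bot (𝓞 M) hPb⟩
  have hvw : w.asIdeal.comap (algebraMap (𝓞 L) (𝓞 M)) = v.asIdeal := by
    rw [hover]
    change (P.comap (algebraMap (𝓞 M) (𝓞 E))).comap (algebraMap (𝓞 L) (𝓞 M)) =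
      P.comap (algebraMap (𝓞 L) (𝓞 E))
    rw [Ideal.comap_comap, ← IsScalarTower.algebraMap_eq (𝓞 L) (𝓞 M) (𝓞 E)]
  refine Pool.Agent.W880.MZH3.isSquare_val v w hvw hunrM a (⟨⟨y, hyE⟩, hyM⟩ : M) ?_
  apply Subtype.ext
  apply Subtype.ext
  exact hya

end main

theorem stmChar (htame : MC.StmTame) : MC.StmChar := by
  intro L K _ _ _ _ _ hreal hrat N hN hunr
  obtain ⟨m, hm2, hmN⟩ : ∃ m : ℕ, 2 ≤ m ∧
      Nat.card (𝓞 L ⧸ (Ideal.span {(N : 𝓞 L)})) < 2 ^ m := by
    refine ⟨Nat.card (𝓞 L ⧸ (Ideal.span {(N : 𝓞 L)})) + 2, by omega, ?_⟩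
    exact lt_trans (by omega) Nat.lt_two_pow_self
  refine ⟨m, hm2, ?_⟩
  intro A _ f μ hf hA hμ r hr g hg
  obtain ⟨y, a, hy0, hya, hy⟩ := exists_sqrt f μ hf
  have ha0 : a ≠ 0 := by
    rintro rfl
    rw [map_zero] at hya
    exact hy0 (pow_eq_zero_iff two_ne_zero |>.1 hya)
  have hchar : CharZero K := charZero_of_injective_algebraMap (algebraMap L K).injective
  have hpos := tot_pos hreal f μ hm2 hμ y a hy0 hya (fun g => (hy g).1)
  have heven := even_out htame N hN hunr f μ (by omega) hmN hf hA hμ y a hya (fun g => (hy g).1)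
  by_contra hcon
  have hgy : g y = -y := (hy g).2 hcon
  have hgy' : g y ≠ y := by
    intro h
    rw [hgy] at h
    exact hy0 (neg_eq_self.1 h)
  rcases hrat a ha0 hpos heven with ⟨b, hb⟩ | ⟨b, hb⟩
  · have h1 : y ^ 2 = (algebraMap L K b) ^ 2 := by
      rw [hya, hb, map_mul, sq]
    rcases sq_eq_sq_iff_eq_or_eq_neg.1 h1 with h2 | h2
    · apply hgy'
      rw [h2, AlgEquiv.commutes]
    · apply hgy'
      rw [h2, map_neg, AlgEquiv.commutes]
  · have hr0 : r ≠ 0 := by
      rintro rfl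
      rw [zero_pow two_ne_zero] at hr
      exact two_ne_zero hr.symm
    have h1 : (r * y) ^ 2 = (algebraMap L K b) ^ 2 := by
      rw [mul_pow, hr, hya, ← map_ofNat (algebraMap L K) 2, ← map_mul, hb, map_mul, sq]
    have h3 : g (r * y) = r * y := by
      rcases sq_eq_sq_iff_eq_or_eq_neg.1 h1 with h2 | h2
      · rw [h2, AlgEquiv.commutes]
      · rw [h2, map_neg, AlgEquiv.commutes]
    rw [map_mul, hg] at h3
    exact hgy' (mul_left_cancel₀ hr0 h3)

end Pool.Agent.W880.MCChar
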